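import Mathlib

set_option autoImplicit false

/-! A monotone class of graphs whose speed satisfies no linear recurrence modulo 2. -/

namespace Pool.Agent.H.MP_337eac_co

open Function Nat Equiv

theorem odd_choose (k j : ℕ) (h : j < 2 ^ k) : Odd ((2 ^ k - 1).choose j) := by
  induction j with
  | zero => simp
  | succ j ih =>
    have e : (2 ^ k).choose (j + 1) = (2 ^ k - 1).choose j + (2 ^ k - 1).choose (j + 1) := by
      rw [← choose_succ_succ']; congr 1; omega
    have := even_iff_two_dvd.2 (prime_two.dvd_choose_pow (n := k) j.succ_ne_zero h.ne)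
    rw [e] at this
    exact (Nat.even_add'.1 this).1 (ih (by omega))

theorem fact_odd (k : ℕ) : ∃ q, Odd q ∧ (2 ^ k - 1)! = q * ∏ i : Fin k, (2 ^ i.val)! := by
  induction k with
  | zero => exact ⟨1, by simp⟩
  | succ k ih =>
    obtain ⟨q, h1, h2⟩ := ih
    have h3 : 2 ^ k ≤ 2 ^ (k + 1) - 1 := by have := k.two_pow_pos; omega
    refine ⟨_, (odd_choose (k + 1) (2 ^ k) (by have := k.two_pow_pos; omega)).mul h1, ?_⟩
    rw [← choose_mul_factorial_mul_factorial h3, show 2 ^ (k + 1) - 1 - 2 ^ k = 2 ^ k - 1 by omega,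
      h2, Fin.prod_univ_castSucc]
    simp; ring

theorem exists_blk (k : ℕ) : ∃ b : Fin (2 ^ (k + 1) - 1) → Fin (k + 1),
    ∀ i, {a | b a = i}.ncard = 2 ^ i.val := by
  have : Fintype.card (Σ i : Fin (k + 1), Fin (2 ^ i.val)) = 2 ^ (k + 1) - 1 := by
    simp [Finset.sum_range (fun i => 2 ^ i) |>.symm, Nat.geomSum_eq]
  let e := Fintype.equivFinOfCardEq this
  refine ⟨fun a => (e.symm a).1, fun i => ?_⟩
  rw [← Set.ncard_image_of_injective _ e.symm.injective]
  have : e.symm '' {a | (e.symm a).1 = i} = Set.range (Sigma.mk i) := by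
    ext ⟨j, x⟩
    simp only [Set.mem_image, Set.mem_ofPred_eq, Set.mem_range]
    constructor
    · rintro ⟨a, h1, h2⟩
      rw [h2] at h1; subst h1; exact ⟨x, rfl⟩
    · rintro ⟨y, h⟩
      exact ⟨e ⟨i, y⟩, by simp, by simp [h]⟩
  rw [this, Set.ncard_range_of_injective sigma_mk_injective]; simp

noncomputable def blk (k : ℕ) := (exists_blk (2 * k + 2)).choose

abbrev N (k : ℕ) : ℕ := 2 ^ (2 * k + 2 + 1) - 1

noncomputable def cl (k : ℕ) (x : Fin (N k)) : ZMod (2 * k + 3) := (blk k x).val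

def A (k : ℕ) : SimpleGraph (Fin (N k)) where
  Adj x y := cl k y = cl k x + 1 ∨ cl k x = cl k y + 1
  symm := ⟨fun _ _ h => h.symm⟩
  loopless := ⟨fun x h => by
    have : Fact (1 < 2 * k + 3) := ⟨by omega⟩
    simp at h⟩

def Sub {m n : ℕ} (g : Fin m → Fin n) (G : SimpleGraph (Fin m)) (H : SimpleGraph (Fin n)) : Prop :=
  Injective g ∧ ∀ x y, G.Adj x y → H.Adj (g x) (g y)

def Emb {m n : ℕ} (g : Fin m → Fin n) (G : SimpleGraph (Fin m)) (H : SimpleGraph (Fin n)) : Prop :=
  Injective g ∧ ∀ x y, G.Adj x y ↔ H.Adj (g x) (g y)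

theorem N_le {j k : ℕ} (h : N k ≤ N j) : k ≤ j := by
  have h4 : 2 ^ (2 * k + 2 + 1) ≤ 2 ^ (2 * j + 2 + 1) := by
    have := (2 * j + 2 + 1).two_pow_pos
    simp only [N] at h; omega
  have := (Nat.pow_le_pow_iff_right (by omega)).1 h4
  omega

theorem anti {j k : ℕ} {g} (h : Sub g (A k) (A j)) : k = j := by
  have hs : ∀ i : ZMod (2 * k + 3), ∃ a, cl k a = i := fun i => by
    obtain ⟨a, ha⟩ := Set.nonempty_of_ncard_ne_zero (((exists_blk (2 * k + 2)).choose_spec
      ⟨i.val, ZMod.val_lt i⟩).trans_ne (by positivity))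
    exact ⟨a, by rw [cl, show blk k a = _ from ha]; simp⟩
  choose t ht using hs
  have : ∀ m : ℕ, ∃ z : ℤ, |z| ≤ m ∧ z % 2 = m % 2 ∧ cl j (g (t m)) = cl j (g (t 0)) + z := by
    intro m
    induction m with
    | zero => exact ⟨0, by simp⟩
    | succ m ih =>
      obtain ⟨z, h1, h2, h3⟩ := ih
      rw [abs_le] at h1
      rcases h.2 (t m) (t (m + 1 : ℕ)) (Or.inl (by simp [ht])) with e | e
      · exact ⟨z + 1, by rw [abs_le]; omega, by omega, by rw [e, h3]; push_cast; ring⟩
      · exact ⟨z - 1, by rw [abs_le]; omega, by omega, by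
          rw [eq_sub_iff_add_eq.2 e.symm, h3]; push_cast; ring⟩
  obtain ⟨z, h1, h2, h3⟩ := this (2 * k + 3)
  rw [ZMod.natCast_self, left_eq_add, ZMod.intCast_zmod_eq_zero_iff_dvd] at h3
  have h4 := Int.le_of_dvd (abs_pos.2 (by omega)) ((dvd_abs _ _).2 h3)
  have h5 := N_le (by simpa using Fintype.card_le_of_injective g h.1)
  omega

@[reducible] def act (n : ℕ) : MulAction (Perm (Fin n)) (SimpleGraph (Fin n)) where
  smul σ G := G.comap ⇑σ⁻¹
  one_smul _ := rfl
  mul_smul _ _ _ := rfl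

theorem odd_copies (k : ℕ) : Odd {G : SimpleGraph (Fin (N k)) | ∃ g, Emb g G (A k)}.ncard := by
  let := act (N k)
  let H : Subgroup (Perm (Fin (N k))) :=
    { carrier := {g | blk k ∘ g = blk k}
      mul_mem' := fun {a b} ha hb => by
        simp only [Set.mem_ofPred_eq, Perm.coe_mul] at *
        rw [← comp_assoc, ha, hb]
      one_mem' := rfl
      inv_mem' := fun {a} ha => funext fun x => by simpa using (congrFun ha (a⁻¹ x)).symm }
  have h1 : H ≤ MulAction.stabilizer _ (A k) := fun g hg => by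
    ext x y
    have := fun z => congrFun (H.inv_mem hg) z
    change (A k).Adj (g⁻¹ x) (g⁻¹ y) ↔ _
    simp only [A, cl, comp] at this ⊢
    rw [this, this]
  have h2 : Nat.card H = ∏ i : Fin (2 * k + 2 + 1), (2 ^ i.val)! := by
    have := DomMulAct.stabilizer_ncard (blk k)
    simp only [blk, (exists_blk (2 * k + 2)).choose_spec] at this
    exact this
  obtain ⟨q, h3, h4⟩ := fact_odd (2 * k + 2 + 1)
  have h5 := H.index_mul_card
  rw [h2, Nat.card_perm, Nat.card_eq_fintype_card, Fintype.card_fin, h4] at h5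
  obtain rfl := Nat.eq_of_mul_eq_mul_right (by positivity) h5
  have := Odd.of_dvd_nat h3 (Subgroup.index_dvd_of_le h1)
  rw [MulAction.index_stabilizer] at this
  convert this using 2
  ext R
  constructor
  · rintro ⟨g, a, b⟩
    exact ⟨(ofBijective g a.bijective_of_finite)⁻¹, SimpleGraph.ext
      (funext₂ fun x y => propext (b x y).symm)⟩
  · rintro ⟨g, rfl⟩
    exact ⟨⇑g⁻¹, g⁻¹.injective, fun _ _ => Iff.rfl⟩

def D (n : ℕ) (G : SimpleGraph (Fin n)) : Prop := ∀ k g, ¬ Sub g (A k) G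

def C (S : Set ℕ) (n : ℕ) (G : SimpleGraph (Fin n)) : Prop :=
  D n G ∨ ∃ k ∈ S, n = N k ∧ ∃ g, Emb g G (A k)

theorem back {n : ℕ} {h : Fin n → Fin n} {G} (hs : Sub h G G) (x y) (e : G.Adj (h x) (h y)) :
    G.Adj x y := by
  have := ((Set.toFinite {z : Fin n × Fin n | G.Adj z.1 z.2}).injOn_iff_bijOn_of_mapsTo
    (f := Prod.map h h) fun z hz => hs.2 _ _ hz).1 (hs.1.prodMap hs.1).injOn
  obtain ⟨z, h1, h2⟩ := this.surjOn (show (h x, h y) ∈ _ from e)
  obtain rfl : z = (x, y) := (hs.1.prodMap hs.1) h2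
  exact h1

theorem mono (S : Set ℕ) {m n} {g : Fin m → Fin n} {G H} (hg : Sub g G H) (h : C S n H) :
    C S m G := by
  by_cases hD : D m G
  · exact Or.inl hD
  simp only [D, not_forall, not_not] at hD
  obtain ⟨j, f, h1⟩ := hD
  rcases h with h | ⟨k, hk, rfl, e, h⟩
  · exact (h j (g ∘ f) ⟨hg.1.comp h1.1, fun x y a => hg.2 _ _ (h1.2 _ _ a)⟩).elim
  have s : Sub (e ∘ g ∘ f) (A j) (A k) :=
    ⟨h.1.comp (hg.1.comp h1.1), fun x y a => (h.2 _ _).1 (hg.2 _ _ (h1.2 _ _ a))⟩
  obtain rfl := anti s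
  have a := Fintype.card_le_of_injective g hg.1
  have b := Fintype.card_le_of_injective f h1.1
  simp only [Fintype.card_fin] at a b
  obtain rfl : m = N j := by omega
  refine Or.inr ⟨j, hk, rfl, e ∘ g, h.1.comp hg.1, fun x y =>
    ⟨fun a => (h.2 _ _).1 (hg.2 _ _ a), fun a => ?_⟩⟩
  obtain ⟨x, rfl⟩ := h1.1.bijective_of_finite.2 x
  obtain ⟨y, rfl⟩ := h1.1.bijective_of_finite.2 y
  exact h1.2 _ _ (back s x y a)

open Classical in
theorem sp (S : Set ℕ) (k : ℕ) : ((({G | C S (N k) G}.ncard : ℕ) : ℤ) : ZMod 2) =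
    ({G | D (N k) G}.ncard : ℕ) + if k ∈ S then 1 else 0 := by
  have inj : ∀ j, N k = N j → k = j := fun j h => le_antisymm (N_le h.le) (N_le h.ge)
  split_ifs with h
  · have : {R | C S (N k) R} = {R | D _ R} ∪ {R | ∃ g, Emb g R (A k)} := by
      ext R
      refine or_congr_right ⟨?_, fun h' => ⟨k, h, rfl, h'⟩⟩
      rintro ⟨j, -, e, h'⟩
      obtain rfl := inj j e
      exact h'
    rw [this, Set.ncard_union_eq]
    · simp [(ZMod.natCast_eq_one_iff_odd).2 (odd_copies k)]
    · refine Set.disjoint_left.2 fun R h1 ⟨g, a, b⟩ => ?_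
      let e := ofBijective g a.bijective_of_finite
      exact h1 k e.symm ⟨e.symm.injective, fun x y h => (b _ _).2 (by
        rwa [← e.apply_symm_apply x, ← e.apply_symm_apply y] at h)⟩
  · have : {R | C S (N k) R} = {R | D _ R} := by
      ext R
      refine or_iff_left ?_
      rintro ⟨j, hj, e, -⟩
      exact h (inj j e ▸ hj)
    simp [this]

theorem countable_rec : {u : ℕ → ZMod 2 | ∃ r p : ℕ, ∃ α : Fin p → ℤ, ∀ n, r ≤ n →
    u (n + p) = ∑ i : Fin p, α i * u (n + i)}.Countable := by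
  simp only [Set.setOf_exists]
  refine Set.countable_iUnion fun r => Set.countable_iUnion fun p => Set.countable_iUnion fun α =>
    Set.countable_of_injective_of_countable_image (f := fun u (i : Fin (r + p)) => u i) ?_
      (Set.to_countable _)
  intro u hu v hv e
  funext n
  induction n using Nat.strong_induction_on with
  | _ n ih =>
    by_cases h : n < r + p
    · exact congrFun e ⟨n, h⟩
    · obtain ⟨m, rfl⟩ : ∃ m, n = m + p := ⟨n - p, by omega⟩
      rw [hu m (by omega), hv m (by omega)]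
      exact Finset.sum_congr rfl fun i _ => by rw [ih _ (by omega)]

theorem exists_class : ∃ C : ∀ n, SimpleGraph (Fin n) → Prop,
    (∀ m n (g : Fin m → Fin n) G H, Sub g G H → C n H → C m G) ∧
    ¬ ∃ r p : ℕ, ∃ α : Fin p → ℤ, ∀ n, r ≤ n → (({G | C (n + p) G}.ncard : ℕ) : ℤ) ≡
      ∑ i : Fin p, α i * ({G | C (n + i) G}.ncard : ℕ) [ZMOD 2] := by
  by_contra h
  simp only [not_exists, not_and, not_forall, not_not] at h
  have hi : Injective fun (S : Set ℕ) (n : ℕ) => ((({G | C S n G}.ncard : ℕ) : ℤ) : ZMod 2) := by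
    intro S T e
    ext k
    have := congrFun e (N k)
    simp only [sp, add_right_inj] at this
    by_cases a : k ∈ S <;> by_cases b : k ∈ T <;> simp_all
  have := countable_rec.preimage_of_injOn hi.injOn
  have hu : Uncountable (Set ℕ) := ⟨fun h => by
    obtain ⟨f, hf⟩ := exists_surjective_nat (Set ℕ)
    exact cantor_surjective f hf⟩
  refine Set.not_countable_univ (this.mono fun S _ => ?_)
  obtain ⟨r, p, α, h⟩ := h _ fun _ _ _ _ _ => mono S
  exact ⟨r, p, α, fun n hn => by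
    simpa using (ZMod.intCast_eq_intCast_iff _ _ 2).2 (h n hn)⟩

end Pool.Agent.H.MP_337eac_co
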